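import Pool.Agent.V1139.AB.Tr

/-!
# The dimension of the space of cycles in an abelian category of motives over a finite field
-/

set_option autoImplicit false
set_option linter.unusedSectionVars false

open CategoryTheory Limits MonoidalCategory

namespace Pool.Agent.V1139.AB

universe v u

lemma mult_zero {L : Type*} [Field L] [CharZero L] (μ : L →₀ ℤ)
    (h : ∀ n : ℕ, 1 ≤ n → (μ.sum fun a m => (m : L) * a ^ n) = 0) : μ 1 = 0 := by
  by_contra h1
  have hli := (linearIndependent_monoidHom (Multiplicative ℕ) L).comp (fun a : L => powersHom L a)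
    (powersHom L).injective
  have h2 := linearIndependent_iff'.1 hli μ.support (fun a => (μ a : L) * a) (by
    funext n
    have h3 := h (n.toAdd + 1) (by omega)
    rw [Finsupp.sum] at h3
    rw [Finset.sum_apply, Pi.zero_apply, ← h3]
    refine Finset.sum_congr rfl fun a _ => ?_
    simp only [Function.comp_apply, Pi.smul_apply, powersHom_apply, smul_eq_mul, pow_succ]
    ring) 1 (Finsupp.mem_support_iff.2 h1)
  rw [mul_one] at h2
  exact h1 (by exact_mod_cast h2)

section

variable {C : Type u} [Category.{v} C]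

/-- the powers of a natural endomorphism of the identity functor -/
def npow (F : 𝟭 C ⟶ 𝟭 C) : ℕ → (𝟭 C ⟶ 𝟭 C)
  | 0 => 𝟙 _
  | n + 1 => npow F n ≫ F

lemma npow_unit [MonoidalCategory C] (F : 𝟭 C ⟶ 𝟭 C) (hF : F.app (𝟙_ C) = 𝟙 (𝟙_ C)) (n : ℕ) :
    (npow F n).app (𝟙_ C) = 𝟙 (𝟙_ C) := by
  induction n with
  | zero => rfl
  | succ n ih => rw [npow, NatTrans.comp_app, ih, hF]; exact Category.comp_id _

end

variable {C : Type u} [Category.{v} C] [Abelian C] [MonoidalCategory C] [SymmetricCategory C]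
  [MonoidalPreadditive C] [RightRigidCategory C] {κ : Type*} [Field κ] [Linear κ C]
  (hκ : ∀ e : 𝟙_ C ⟶ 𝟙_ C, ∃ c : κ, e = c • 𝟙 (𝟙_ C))

/-- Alternating multiplicities of the Frobenius eigenvalues: `μ X α` is the multiplicity of the
eigenvalue `α` of `F` on the even cohomology of `X` minus the one on the odd cohomology. -/
structure Weil (κ : Type*) [Field κ] [Linear κ C] (F : 𝟭 C ⟶ 𝟭 C) (L : Type*) [Field L]
    [Algebra κ L] (μ : C → L →₀ ℤ) : Prop where
  unit : F.app (𝟙_ C) = 𝟙 (𝟙_ C)
  trace (X : C) (n : ℕ) : 1 ≤ n → ∃ c : κ, tr ((npow F n).app X) = c • 𝟙 (𝟙_ C) ∧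
    algebraMap κ L c = (μ X).sum fun a m => (m : L) * a ^ n
  pos (X : C) : 0 ≤ μ X 1

variable {F : 𝟭 C ⟶ 𝟭 C} {L : Type*} [Field L] [CharZero L] [Algebra κ L] {μ : C → L →₀ ℤ}
  (hW : Weil κ F L μ)

include hκ hW

lemma mult_step {X : C} (z : 𝟙_ C ⟶ X) (hz : z ≠ 0) : μ X 1 = μ (cokernel z) 1 + 1 := by
  classical
  have h1 : Mono z := scalar_mono hκ z hz
  have hS : (ShortComplex.mk z (cokernel.π z) (cokernel.condition z)).Exact :=
    ShortComplex.exact_cokernel z
  have hunit : (𝟙 (𝟙_ C)) ≠ 0 := by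
    intro h0
    apply hz
    rw [← Category.id_comp z, h0, zero_comp]
  have h2 : (μ X - μ (cokernel z) - Finsupp.single (1 : L) (1 : ℤ) : L →₀ ℤ) 1 = 0 := by
    apply mult_zero
    intro n hn
    have h3 := tr_add (idem_of_scalar hκ) z (cokernel.π z) (cokernel.condition z) hS hz
      (g := (npow F n).app X) (gY := (npow F n).app (cokernel z)) (by
        have h4 := (npow F n).naturality z
        rw [npow_unit F hW.unit] at h4
        simp only [Functor.id_map, Functor.id_obj] at h4
        rw [h4]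
        exact Category.id_comp _) (((npow F n).naturality (cokernel.π z)).symm)
    obtain ⟨c, hc1, hc2⟩ := hW.trace X n hn
    obtain ⟨c', hc1', hc2'⟩ := hW.trace (cokernel z) n hn
    rw [hc1, hc1'] at h3
    have h5 : (c - c' - 1) • 𝟙 (𝟙_ C) = 0 := by
      rw [sub_smul, sub_smul, h3, one_smul]
      abel
    have h6 : c - c' - 1 = 0 := by
      by_contra h7
      apply hunit
      have h8 := congrArg (fun v => (c - c' - 1)⁻¹ • v) h5
      simpa [smul_smul, inv_mul_cancel₀ h7] using h8
    have h7 : algebraMap κ L c - algebraMap κ L c' - 1 = 0 := by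
      rw [← map_sub, ← map_one (algebraMap κ L), ← map_sub, h6, map_zero]
    rw [hc2, hc2'] at h7
    have h8 : ∀ (a b : L →₀ ℤ), ((a - b).sum fun x m => (m : L) * x ^ n) =
        (a.sum fun x m => (m : L) * x ^ n) - (b.sum fun x m => (m : L) * x ^ n) := by
      intro a b
      exact Finsupp.sum_sub_index fun x p q => by push_cast; ring
    rw [h8, h8, Finsupp.sum_single_index (by simp)]
    simpa using h7
  simp only [Finsupp.coe_sub, Pi.sub_apply, Finsupp.single_eq_same] at h2
  omega

omit hW in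
lemma li_quot {n : ℕ} {Y : C} (y : Fin (n + 1) → (𝟙_ C ⟶ Y)) (hy : LinearIndependent κ y) :
    LinearIndependent κ (fun j : Fin n => y j.castSucc ≫ cokernel.π (y (Fin.last n))) := by
  have h1 : Mono (y (Fin.last n)) := scalar_mono hκ _ (hy.ne_zero _)
  rw [Fintype.linearIndependent_iff]
  intro c hc j
  have h3 : (∑ j, c j • y j.castSucc) ≫ cokernel.π (y (Fin.last n)) = 0 := by
    rw [Preadditive.sum_comp]
    simpa only [Linear.smul_comp] using hc
  obtain ⟨d, hd⟩ := hκ (Abelian.monoLift (y (Fin.last n)) _ h3)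
  have h4 := Abelian.monoLift_comp (y (Fin.last n)) _ h3
  rw [hd, Linear.smul_comp, Category.id_comp] at h4
  have h5 := Fintype.linearIndependent_iff.1 hy (Fin.snoc (α := fun _ => κ) c (-d)) (by
    rw [Fin.sum_univ_castSucc]
    simp only [Fin.snoc_castSucc, Fin.snoc_last]
    rw [← h4, neg_smul, add_neg_cancel])
  have h6 := h5 j.castSucc
  rwa [Fin.snoc_castSucc] at h6

theorem bound (n : ℕ) : ∀ {X : C} (x : Fin n → (𝟙_ C ⟶ X)), LinearIndependent κ x →
    (n : ℤ) ≤ μ X 1 := by
  induction n with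
  | zero => intro X _ _; simpa using hW.pos X
  | succ n ih =>
    intro X x hx
    have h1 := mult_step hκ hW (x (Fin.last n)) (hx.ne_zero _)
    have h2 := ih _ (li_quot hκ x hx)
    push_cast
    omega

theorem rank_bound (X : C) : Module.rank κ (𝟙_ C ⟶ X) ≤ ((μ X 1).toNat : Cardinal) := by
  apply rank_le
  intro s hs
  have h1 : LinearIndependent κ (fun j : Fin s.card => ((s.equivFin.symm j : s) : 𝟙_ C ⟶ X)) :=
    hs.comp _ s.equivFin.symm.injective
  have h2 := bound hκ hW _ _ h1
  omega

/-- Numerically trivial elements vanish if there are enough cycles modulo numerical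
equivalence. -/
theorem num_zero {X : C} (n : ℕ) (hn : (n : ℤ) = μ X 1) (x : Fin n → (𝟙_ C ⟶ X))
    (r : Fin n → (X ⟶ 𝟙_ C)) (hxr : ∀ i j, x i ≫ r j = if i = j then 𝟙 (𝟙_ C) else 0)
    (z : 𝟙_ C ⟶ X) (hz : ∀ r : X ⟶ 𝟙_ C, z ≫ r = 0) : z = 0 := by
  by_contra h0
  have hunit : (𝟙 (𝟙_ C)) ≠ 0 := by
    intro h1
    apply h0
    rw [← Category.id_comp z, h1, zero_comp]
  have hli : LinearIndependent κ (Fin.snoc (α := fun _ => (𝟙_ C ⟶ X)) x z) := by
    rw [Fintype.linearIndependent_iff]
    intro c hc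
    rw [Fin.sum_univ_castSucc] at hc
    simp only [Fin.snoc_castSucc, Fin.snoc_last] at hc
    have h1 : ∀ j : Fin n, c j.castSucc = 0 := by
      intro j
      have h2 := congrArg (fun v => v ≫ r j) hc
      simp only [Preadditive.add_comp, Preadditive.sum_comp, Linear.smul_comp, hxr, hz, smul_zero,
        add_zero, zero_comp, smul_ite, Finset.sum_ite_eq', Finset.mem_univ, if_true] at h2
      by_contra h3
      apply hunit
      have h4 := congrArg (fun v => (c j.castSucc)⁻¹ • v) h2
      simpa [smul_smul, inv_mul_cancel₀ h3] using h4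
    intro j
    induction j using Fin.lastCases with
    | cast j => exact h1 j
    | last =>
      simp only [h1, zero_smul, Finset.sum_const_zero, zero_add] at hc
      by_contra h3
      apply h0
      have h4 := congrArg (fun v => (c (Fin.last n))⁻¹ • v) hc
      simpa [smul_smul, inv_mul_cancel₀ h3] using h4
  have h1 := bound hκ hW _ _ hli
  push_cast at h1
  omega

end Pool.Agent.V1139.AB
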