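import Pool.Agent.V1139.AB.Bound

/-!
# Nilpotence of numerically trivial endomorphisms in an abelian category of motives
-/

set_option autoImplicit false
set_option linter.unusedSectionVars false

open CategoryTheory Limits MonoidalCategory Polynomial

namespace Pool.Agent.V1139.AB

universe v u

lemma mult_zero' {L : Type*} [Field L] [CharZero L] (μ : L →₀ ℤ)
    (h : ∀ n : ℕ, 1 ≤ n → (μ.sum fun a m => (m : L) * a ^ n) = 0) (h0 : μ 0 = 0) : μ = 0 := by
  ext b
  by_contra h1
  have h1' : μ b ≠ 0 := h1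
  have hli := (linearIndependent_monoidHom (Multiplicative ℕ) L).comp (fun a : L => powersHom L a)
    (powersHom L).injective
  have h2 := linearIndependent_iff'.1 hli μ.support (fun a => (μ a : L) * a) (by
    funext n
    have h3 := h (n.toAdd + 1) (by omega)
    rw [Finsupp.sum] at h3
    rw [Finset.sum_apply, Pi.zero_apply, ← h3]
    refine Finset.sum_congr rfl fun a _ => ?_
    simp only [Function.comp_apply, Pi.smul_apply, powersHom_apply, smul_eq_mul, pow_succ]
    ring) b (Finsupp.mem_support_iff.2 h1')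
  rcases mul_eq_zero.1 h2 with h3 | h3
  · exact h1' (by exact_mod_cast h3)
  · exact h1' (by rw [h3, h0])

variable {C : Type u} [Category.{v} C] [Abelian C] [MonoidalCategory C] [SymmetricCategory C]
  [MonoidalPreadditive C] [RightRigidCategory C] {κ : Type*} [Field κ] [Linear κ C]

lemma tr_cyc {X Y : C} (a : X ⟶ Y) (b : Y ⟶ X) : tr (a ≫ b) = tr (b ≫ a) := by
  rw [tr, tr, comp_whiskerRight, comp_whiskerRight, Category.assoc, Category.assoc, ← ev_mate b,
    ← whisker_exchange_assoc, ← Category.assoc, coevaluation_comp_rightAdjointMate,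
    Category.assoc]

lemma isZero_of_coev {A : C} (h0 : η_ A (Aᘁ : C) = 0) : IsZero A := by
  rw [IsZero.iff_id_eq_zero]
  have h1 : (η_ A (Aᘁ : C) ▷ A) ≫ (α_ _ _ _).hom ≫ (A ◁ ε_ A (Aᘁ : C)) =
      (λ_ A).hom ≫ (ρ_ A).inv := ExactPairing.evaluation_coevaluation _ _
  rw [h0, MonoidalPreadditive.zero_whiskerRight, Limits.zero_comp] at h1
  have h2 : 𝟙 A = (λ_ A).inv ≫ ((λ_ A).hom ≫ (ρ_ A).inv) ≫ (ρ_ A).hom := by simp
  rw [h2, ← h1, Limits.zero_comp, Limits.comp_zero]

/-- The name of a morphism, as a linear map. -/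
def nameHom [MonoidalLinear κ C] (X Y : C) : (X ⟶ Y) →ₗ[κ] (𝟙_ C ⟶ Y ⊗ (Xᘁ : C)) where
  toFun f := η_ X (Xᘁ : C) ≫ (f ▷ (Xᘁ : C))
  map_add' f g := by
    rw [MonoidalPreadditive.add_whiskerRight, Preadditive.comp_add]
  map_smul' r f := by
    rw [MonoidalLinear.smul_whiskerRight, Linear.comp_smul, RingHom.id_apply]

lemma nameHom_inj [MonoidalLinear κ C] (X Y : C) :
    Function.Injective (nameHom (κ := κ) X Y) := by
  have key : ∀ f : X ⟶ Y, f = (λ_ X).inv ≫ ((η_ X (Xᘁ : C) ≫ (f ▷ (Xᘁ : C))) ▷ X) ≫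
      (α_ _ _ _).hom ≫ (Y ◁ ε_ X (Xᘁ : C)) ≫ (ρ_ Y).hom := by
    intro f
    rw [comp_whiskerRight, Category.assoc, associator_naturality_left_assoc,
      ← whisker_exchange_assoc, ExactPairing.evaluation_coevaluation_assoc]
    simp
  intro f g h
  rw [key f, key g]
  exact congrArg (fun v => (λ_ X).inv ≫ (v ▷ X) ≫ (α_ _ _ _).hom ≫ (Y ◁ ε_ X (Xᘁ : C)) ≫
    (ρ_ Y).hom) h

/-- Weil data with Frobenius eigenvalues different from zero and compatible with tensor
products. -/
structure WeilTensor (κ : Type*) [Field κ] [Linear κ C] (F : 𝟭 C ⟶ 𝟭 C) (L : Type*) [Field L]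
    [Algebra κ L] (μ : C → L →₀ ℤ) : Prop where
  weil : Weil κ F L μ
  nonzero (X : C) : μ X 0 = 0
  tensor (X Y : C) : μ X = 0 → μ (X ⊗ Y) = 0

variable (hκ : ∀ e : 𝟙_ C ⟶ 𝟙_ C, ∃ c : κ, e = c • 𝟙 (𝟙_ C))
  {F : 𝟭 C ⟶ 𝟭 C} {L : Type*} [Field L] [CharZero L] [Algebra κ L] {μ : C → L →₀ ℤ}
  (hW : WeilTensor κ F L μ)

include hκ hW

/-- There are no phantoms. -/
theorem no_phantom {X : C} (h : μ X = 0) : IsZero X := by
  apply isZero_of_coev
  by_contra h0
  have h1 := mult_step hκ hW.weil _ h0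
  have h2 := hW.weil.pos (cokernel (η_ X (Xᘁ : C)))
  rw [hW.tensor X (Xᘁ : C) h] at h1
  simp only [Finsupp.coe_zero, Pi.zero_apply] at h1
  omega

theorem hom_rank [MonoidalLinear κ C] (X Y : C) :
    Module.rank κ (X ⟶ Y) ≤ ((μ (Y ⊗ (Xᘁ : C)) 1).toNat : Cardinal) := by
  have h1 := rank_bound hκ hW.weil (Y ⊗ (Xᘁ : C))
  have h2 := LinearMap.lift_rank_le_of_injective (nameHom (κ := κ) X Y) (nameHom_inj X Y)
  simp only [Cardinal.lift_id] at h2
  exact h2.trans h1

lemma mu_zero_of_tr (hunit : (𝟙 (𝟙_ C)) ≠ 0) {X : C}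
    (h : ∀ n, tr ((npow F n).app X) = 0) : μ X = 0 := by
  apply mult_zero' _ _ (hW.nonzero X)
  intro n hn
  obtain ⟨c, hc1, hc2⟩ := hW.weil.trace X n hn
  have h3 : tr ((npow F n).app X) = 0 := h n
  rw [h3] at hc1
  have hc : c = 0 := by
    by_contra h7
    apply hunit
    have h8 := congrArg (fun v => c⁻¹ • v) hc1.symm
    simpa [smul_smul, inv_mul_cancel₀ h7] using h8
  rw [← hc2, hc, map_zero]

/-- Numerically trivial endomorphisms are nilpotent. -/
theorem nilpotent [MonoidalLinear κ C] {X : C} (f : End X)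
    (hf : ∀ g : X ⟶ X, tr ((show X ⟶ X from f) ≫ g) = 0) : ∃ n : ℕ, f ^ n = 0 := by
  by_cases hunit : (𝟙 (𝟙_ C)) = 0
  · have h1 : IsZero (𝟙_ C) := (IsZero.iff_id_eq_zero _).2 hunit
    have h2 : IsZero X := (isZero_left h1 X).of_iso (λ_ X).symm
    exact ⟨1, by rw [pow_one]; exact h2.eq_of_src (show X ⟶ X from f) 0⟩
  have hfin : Module.Finite κ (End X) := by
    have h1 : Module.rank κ (End X) < Cardinal.aleph0 :=
      lt_of_le_of_lt (hom_rank hκ hW X X) (Cardinal.natCast_lt_aleph0)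
    exact Module.rank_lt_aleph0_iff.1 h1
  obtain ⟨P, hP0, hP⟩ : ∃ P : κ[X], P ≠ 0 ∧ aeval f P = 0 := by
    have h1 : IsIntegral κ f := IsIntegral.of_finite κ f
    exact ⟨minpoly κ f, minpoly.ne_zero h1, minpoly.aeval κ f⟩
  obtain ⟨p, hp1, hp2⟩ := Polynomial.exists_eq_pow_rootMultiplicity_mul_and_not_dvd P hP0 0
  set a := P.rootMultiplicity 0
  rw [map_zero, sub_zero] at hp1 hp2
  have hcop : IsCoprime (Polynomial.X ^ (a + 1) : κ[X]) p := by
    apply IsCoprime.pow_left
    exact (Polynomial.prime_X.irreducible.coprime_iff_not_dvd).2 hp2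
  obtain ⟨s, r, hsr⟩ := hcop
  let e : End X := aeval f (s * Polynomial.X ^ (a + 1))
  let e' : End X := aeval f (r * p)
  let w : End X := aeval f (s * Polynomial.X ^ a)
  have hee : e + e' = 1 := by
    simp only [e, e', ← map_add, hsr, map_one]
  have hprod : ∀ q : κ[X], aeval f (q * (Polynomial.X ^ (a + 1) * p)) = 0 := by
    intro q
    have h1 : q * (Polynomial.X ^ (a + 1) * p) = (q * Polynomial.X) * P := by
      rw [hp1]
      ring
    rw [h1, map_mul, hP, mul_zero]
  have hidem : e * e = e := by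
    have h1 : e * e' = 0 := by
      simp only [e, e', ← map_mul]
      rw [show s * Polynomial.X ^ (a + 1) * (r * p) = (s * r) * (Polynomial.X ^ (a + 1) * p) by
        ring]
      exact hprod _
    calc e * e = e * (e + e') := by rw [mul_add, h1, add_zero]
      _ = e := by rw [hee, mul_one]
  have hew : e = w * f := by
    simp only [e, w]
    conv_rhs => rw [← aeval_X (R := κ) f]
    rw [aeval_X, show s * Polynomial.X ^ (a + 1) = (s * Polynomial.X ^ a) * Polynomial.X by ring,
      map_mul, aeval_X]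
  let em : X ⟶ X := e
  have hidem' : em ≫ em = em := hidem
  have hem : em = (show X ⟶ X from f) ≫ (show X ⟶ X from w) := hew
  let π := Abelian.factorThruImage em
  let ι := Abelian.image.ι em
  have hfac : π ≫ ι = em := Abelian.image.fac em
  have hιπ : ι ≫ π = 𝟙 _ := by
    rw [← cancel_epi π, ← cancel_mono ι]
    simp only [Category.assoc, hfac, Category.comp_id, Category.id_comp]
    rw [← Category.assoc, hfac, hidem']
  have hz : IsZero (Abelian.image em) := by
    apply no_phantom hκ hW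
    apply mu_zero_of_tr hκ hW hunit
    intro n
    have h1 : (npow F n).app (Abelian.image em) = ι ≫ ((npow F n).app X ≫ π) := by
      have h2 := (npow F n).naturality π
      simp only [Functor.id_map] at h2
      rw [← h2, ← Category.assoc, hιπ]
      exact (Category.id_comp _).symm
    rw [h1]
    have h3 := tr_cyc ι ((npow F n).app X ≫ π)
    rw [h3]
    have h4 : ((npow F n).app X ≫ π) ≫ ι = (npow F n).app X ≫ em := by
      rw [Category.assoc, hfac]
    rw [h4]
    have h5 := tr_cyc (show X ⟶ X from (npow F n).app X) em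
    have h6 : tr (em ≫ (show X ⟶ X from (npow F n).app X)) = 0 := by
      rw [hem, Category.assoc]
      exact hf _
    exact h5.trans h6
  have hem0 : em = 0 := by
    rw [← hfac, hz.eq_of_src ι 0, Limits.comp_zero]
  have he0 : e = 0 := hem0
  refine ⟨a + 1, ?_⟩
  have h1 : e' = 1 := by rw [← hee, he0, zero_add]
  calc f ^ (a + 1) = e' * f ^ (a + 1) := by rw [h1, one_mul]
    _ = aeval f (r * (Polynomial.X ^ (a + 1) * p)) := by
      rw [show r * (Polynomial.X ^ (a + 1) * p) = (r * p) * Polynomial.X ^ (a + 1) by ring,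
        map_mul, map_pow, aeval_X]
    _ = 0 := hprod _

end Pool.Agent.V1139.AB
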