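import Pool.Agent.V1139.AB.Unit

/-!
# Tensor products of nonzero morphisms
-/

set_option autoImplicit false
set_option linter.unusedSectionVars false

open CategoryTheory Limits MonoidalCategory

namespace Pool.Agent.V1139.AB

universe v u

section

variable {C : Type u} [Category.{v} C] [MonoidalCategory C]

/-- the tensor power `X^{⊗n}` -/
def tpo (X : C) : ℕ → C
  | 0 => 𝟙_ C
  | n + 1 => tpo X n ⊗ X

/-- the tensor power `f^{⊗n}` of a morphism -/
def tpm {X Y : C} (f : X ⟶ Y) : ∀ n : ℕ, tpo X n ⟶ tpo Y n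
  | 0 => 𝟙 (𝟙_ C)
  | n + 1 => tpm f n ⊗ₘ f

end

variable {C : Type u} [Category.{v} C] [Abelian C] [MonoidalCategory C] [SymmetricCategory C]
  [MonoidalPreadditive C] [RightRigidCategory C]
  (hid : ∀ e : 𝟙_ C ⟶ 𝟙_ C, e ≫ e = e → e = 0 ∨ e = 𝟙 _)

include hid in
lemma isZero_or {A B : C} (h : IsZero (B ⊗ A)) : IsZero A ∨ IsZero B := by
  by_cases h0 : η_ A (Aᘁ : C) = 0
  · left
    rw [IsZero.iff_id_eq_zero]
    have h1 : (η_ A (Aᘁ : C) ▷ A) ≫ (α_ _ _ _).hom ≫ (A ◁ ε_ A (Aᘁ : C)) =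
        (λ_ A).hom ≫ (ρ_ A).inv := ExactPairing.evaluation_coevaluation _ _
    rw [h0, MonoidalPreadditive.zero_whiskerRight, zero_comp] at h1
    have h2 : 𝟙 A = (λ_ A).inv ≫ ((λ_ A).hom ≫ (ρ_ A).inv) ≫ (ρ_ A).hom := by simp
    rw [h2, ← h1, zero_comp, comp_zero]
  · right
    have h1 := unit_mono hid _ h0
    have h2 : IsZero (B ⊗ (A ⊗ (Aᘁ : C))) := (isZero_left h (Aᘁ : C)).of_iso (α_ _ _ _).symm
    have h3 : B ◁ η_ A (Aᘁ : C) = 0 := h2.eq_of_tgt _ _
    exact (IsZero.of_mono_eq_zero _ h3).of_iso (ρ_ B).symm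

include hid in
/-- The tensor product of nonzero morphisms is nonzero. -/
theorem tensor_ne {X X' Y Y' : C} (f : X ⟶ X') (g : Y ⟶ Y') (hf : f ≠ 0) (hg : g ≠ 0) :
    (f ⊗ₘ g) ≠ 0 := by
  intro h
  have h1 : (f ⊗ₘ g) = (Abelian.factorThruImage f ⊗ₘ Abelian.factorThruImage g) ≫
      (Abelian.image.ι f ⊗ₘ Abelian.image.ι g) := by
    rw [tensorHom_comp_tensorHom, Abelian.image.fac, Abelian.image.fac]
  have h2 : Epi (Abelian.factorThruImage f ⊗ₘ Abelian.factorThruImage g) := by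
    rw [MonoidalCategory.tensorHom_def]
    infer_instance
  have h3 : Mono (Abelian.image.ι f ⊗ₘ Abelian.image.ι g) := by
    rw [MonoidalCategory.tensorHom_def]
    infer_instance
  rw [h1] at h
  have h4 : (Abelian.image.ι f ⊗ₘ Abelian.image.ι g) = 0 := by
    rw [← cancel_epi (Abelian.factorThruImage f ⊗ₘ Abelian.factorThruImage g), h, comp_zero]
  rcases isZero_or hid (IsZero.of_mono_eq_zero _ h4) with h5 | h5
  · exact hg (by rw [← Abelian.image.fac g, h5.eq_of_src (Abelian.image.ι g) 0, comp_zero])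
  · exact hf (by rw [← Abelian.image.fac f, h5.eq_of_src (Abelian.image.ι f) 0, comp_zero])

include hid in
/-- There are no nonzero smash nilpotent morphisms. -/
theorem tpm_ne {X Y : C} (f : X ⟶ Y) (hf : f ≠ 0) (n : ℕ) : tpm f n ≠ 0 := by
  induction n with
  | zero =>
    intro h
    have h1 : IsZero (𝟙_ C) := (IsZero.iff_id_eq_zero _).2 h
    have h2 : IsZero X := (isZero_left h1 X).of_iso (λ_ X).symm
    exact hf (h2.eq_of_src _ _)
  | succ n ih => exact tensor_ne hid _ _ ih hf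

end Pool.Agent.V1139.AB
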