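import Pool.Agent.V1139.AB.Prod

/-!
# Additivity of traces for subobjects isomorphic to the unit
-/

set_option autoImplicit false
set_option linter.unusedSectionVars false

open CategoryTheory Limits MonoidalCategory

namespace Pool.Agent.V1139.AB

universe v u

section

variable {C : Type u} [Category.{v} C] [MonoidalCategory C] [SymmetricCategory C]
  [RightRigidCategory C]

/-- the evaluation `X ⊗ X^∨ ⟶ 𝟙` -/
def ev (X : C) : X ⊗ (Xᘁ : C) ⟶ 𝟙_ C := (β_ X (Xᘁ : C)).hom ≫ ε_ X (Xᘁ : C)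

/-- the trace of an endomorphism -/
def tr {X : C} (a : X ⟶ X) : 𝟙_ C ⟶ 𝟙_ C := η_ X (Xᘁ : C) ≫ (a ▷ (Xᘁ : C)) ≫ ev X

lemma tran_inj {T X : C} (a b : T ⟶ (Xᘁ : C))
    (h : (a ▷ X) ≫ ε_ X (Xᘁ : C) = (b ▷ X) ≫ ε_ X (Xᘁ : C)) : a = b := by
  have key : ∀ c : T ⟶ (Xᘁ : C), c = (ρ_ _).inv ≫ (T ◁ η_ X (Xᘁ : C)) ≫ (α_ _ _ _).inv ≫
      (((c ▷ X) ≫ ε_ X (Xᘁ : C)) ▷ (Xᘁ : C)) ≫ (λ_ _).hom := by
    intro c
    rw [comp_whiskerRight, Category.assoc, ← associator_inv_naturality_left_assoc,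
      whisker_exchange_assoc, ExactPairing.coevaluation_evaluation_assoc]
    simp
  rw [key a, key b, h]

/-- the morphism `T ⟶ X^∨` corresponding to `T ⊗ X ⟶ 𝟙` -/
def tran {T X : C} (k : T ⊗ X ⟶ 𝟙_ C) : T ⟶ (Xᘁ : C) :=
  (ρ_ _).inv ≫ (T ◁ η_ X (Xᘁ : C)) ≫ (α_ _ _ _).inv ≫ (k ▷ (Xᘁ : C)) ≫ (λ_ _).hom

lemma tran_ev {T X : C} (k : T ⊗ X ⟶ 𝟙_ C) : (tran k ▷ X) ≫ ε_ X (Xᘁ : C) = k := by
  have h1 := (tensorRightHomEquiv T X (Xᘁ : C) (𝟙_ C)).left_inv k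
  have h2 : tran k = (tensorRightHomEquiv T X (Xᘁ : C) (𝟙_ C)) k ≫ (λ_ _).hom := by
    simp [tran, tensorRightHomEquiv]
  have h3 : (tensorRightHomEquiv T X (Xᘁ : C) (𝟙_ C)).symm
      ((tensorRightHomEquiv T X (Xᘁ : C) (𝟙_ C)) k) = k := h1
  rw [h2, comp_whiskerRight, Category.assoc]
  conv_rhs => rw [← h3]
  simp [tensorRightHomEquiv, ← unitors_equal]

/-- the transpose of an element -/
def zd {X : C} (z : 𝟙_ C ⟶ X) : (Xᘁ : C) ⟶ 𝟙_ C := (ρ_ _).inv ≫ ((Xᘁ : C) ◁ z) ≫ ε_ X (Xᘁ : C)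

lemma ev_mate {X Y : C} (q : X ⟶ Y) : (X ◁ (qᘁ)) ≫ ev X = (q ▷ (Yᘁ : C)) ≫ ev Y := by
  rw [ev, ev, ← Category.assoc, BraidedCategory.braiding_naturality_right, Category.assoc,
    rightAdjointMate_comp_evaluation, ← Category.assoc, ← Category.assoc,
    ← BraidedCategory.braiding_naturality_left]

lemma ev_zd {X : C} (z : 𝟙_ C ⟶ X) : (z ▷ (Xᘁ : C)) ≫ ev X = (λ_ _).hom ≫ zd z := by
  rw [ev, ← Category.assoc, BraidedCategory.braiding_naturality_left, zd, Category.assoc]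
  simp

lemma coev_zd {X : C} (z : 𝟙_ C ⟶ X) : η_ X (Xᘁ : C) ≫ (X ◁ zd z) ≫ (ρ_ _).hom = z := by
  have h1 : η_ X (Xᘁ : C) ▷ X ≫ (α_ _ _ _).hom ≫ X ◁ ε_ X (Xᘁ : C) = (λ_ X).hom ≫ (ρ_ X).inv :=
    ExactPairing.evaluation_coevaluation _ _
  have h2 : η_ X (Xᘁ : C) ≫ (X ◁ zd z) = (ρ_ _).inv ≫ (𝟙_ C ◁ z) ≫ η_ X (Xᘁ : C) ▷ X ≫
      (α_ _ _ _).hom ≫ X ◁ ε_ X (Xᘁ : C) := by
    rw [zd, whiskerLeft_comp, whiskerLeft_comp, whisker_exchange_assoc]
    simp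
  rw [← Category.assoc, h2]
  simp only [Category.assoc, h1]
  simp [unitors_equal]

end

section Ab

variable {C : Type u} [Category.{v} C] [Abelian C] [MonoidalCategory C] [SymmetricCategory C]
  [MonoidalPreadditive C] [RightRigidCategory C]
  (hid : ∀ e : 𝟙_ C ⟶ 𝟙_ C, e ≫ e = e → e = 0 ∨ e = 𝟙 _)

include hid in
/-- A nonzero morphism to the unit is an epimorphism. -/
theorem unit_epi {X : C} (f : X ⟶ 𝟙_ C) (hf : f ≠ 0) : Epi f := by
  let i := Abelian.image.ι f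
  let p := cokernel.π i
  have h : i ≫ p = 0 := cokernel.condition i
  have hS : (ShortComplex.mk i p h).Exact := ShortComplex.exact_cokernel i
  obtain ⟨r, hr⟩ := exists_retraction i p h hS
  have hri : i ≫ r ≫ i = i := by rw [← Category.assoc, hr, Category.id_comp]
  have hfi : Abelian.factorThruImage f ≫ i = f := Abelian.image.fac f
  rcases hid (r ≫ i) (by rw [Category.assoc, hri]) with h1 | h1
  · exfalso
    apply hf
    have h2 : i = 0 := by rw [← hri, h1, comp_zero]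
    rw [← hfi, h2, comp_zero]
  · have h2 : Epi i := by
      have : IsSplitEpi i := IsSplitEpi.mk' ⟨r, h1⟩
      infer_instance
    rw [← hfi]
    infer_instance

variable {X Y : C} (z : 𝟙_ C ⟶ X) (q : X ⟶ Y) [Mono z] [Epi q] (w : z ≫ q = 0)
  (hS : (ShortComplex.mk z q w).Exact)

instance mate_mono : Mono (qᘁ) := by
  rw [Preadditive.mono_iff_cancel_zero]
  intro T a ha
  apply tran_inj
  rw [MonoidalPreadditive.zero_whiskerRight, zero_comp, ← cancel_epi (T ◁ q), comp_zero,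
    whisker_exchange_assoc, ← rightAdjointMate_comp_evaluation, ← comp_whiskerRight_assoc, ha,
    MonoidalPreadditive.zero_whiskerRight, zero_comp]

include w in
lemma mate_zd : (qᘁ) ≫ zd z = 0 := by
  rw [zd, rightUnitor_inv_naturality_assoc, ← whisker_exchange_assoc,
    rightAdjointMate_comp_evaluation, ← whiskerLeft_comp_assoc, w,
    MonoidalPreadditive.whiskerLeft_zero, zero_comp, comp_zero]

include hS in
lemma mate_lift {T : C} (k : T ⟶ (Xᘁ : C)) (hk : k ≫ zd z = 0) : ∃ l, l ≫ (qᘁ) = k := by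
  have h1 : (ShortComplex.mk z q w).ShortExact := ShortComplex.ShortExact.mk hS
  have h2 := h1.map_of_exact (tensorLeft T)
  have h3 : (T ◁ z) ≫ (k ▷ X) ≫ ε_ X (Xᘁ : C) = 0 := by
    rw [whisker_exchange_assoc]
    have h4 : (k ▷ 𝟙_ C) ≫ ((Xᘁ : C) ◁ z) ≫ ε_ X (Xᘁ : C) = (ρ_ _).hom ≫ k ≫ zd z := by
      rw [zd]
      simp
    rw [h4, hk, comp_zero]
  have h5 : Epi ((ShortComplex.mk z q w).map (tensorLeft T)).g := h2.epi_g
  let K : T ⊗ Y ⟶ 𝟙_ C := h2.exact.desc ((k ▷ X) ≫ ε_ X (Xᘁ : C)) h3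
  have hK : (T ◁ q) ≫ K = (k ▷ X) ≫ ε_ X (Xᘁ : C) := h2.exact.g_desc _ h3
  refine ⟨tran K, tran_inj _ _ ?_⟩
  rw [comp_whiskerRight, Category.assoc, rightAdjointMate_comp_evaluation,
    ← whisker_exchange_assoc, tran_ev, hK]

include hS in
lemma mate_exact : (ShortComplex.mk (qᘁ) (zd z) (mate_zd z q w)).Exact := by
  apply ShortComplex.exact_of_f_is_kernel
  exact KernelFork.IsLimit.ofι' _ _ fun {A} k hk =>
    ⟨(mate_lift z q w hS k hk).choose, (mate_lift z q w hS k hk).choose_spec⟩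

include hid hS in
/-- Additivity of the trace. -/
theorem tr_add (hz0 : z ≠ 0) {g : X ⟶ X} {gY : Y ⟶ Y} (hz : z ≫ g = z) (hg : g ≫ q = q ≫ gY) :
    tr g = tr gY + 𝟙 _ := by
  have hzd : zd z ≠ 0 := by
    intro h0
    apply hz0
    rw [← coev_zd z, h0, MonoidalPreadditive.whiskerLeft_zero, zero_comp, comp_zero]
  have hzde : Epi (zd z) := unit_epi hid _ hzd
  have hE : (ShortComplex.mk (qᘁ) (zd z) (mate_zd z q w)).ShortExact :=
    ShortComplex.ShortExact.mk (mate_exact z q w hS)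
  have hEX := (hE.map_of_exact (tensorLeft X)).exact
  have hEY := (hE.map_of_exact (tensorLeft Y)).exact
  let π := kernel.ι ((q ▷ (Xᘁ : C)) ≫ (Y ◁ zd z))
  have hπ : (π ≫ (q ▷ (Xᘁ : C))) ≫ (Y ◁ zd z) = 0 := by
    rw [Category.assoc]
    exact kernel.condition _
  have hm1 : Mono ((ShortComplex.mk (qᘁ) (zd z) (mate_zd z q w)).map (tensorLeft X)).f :=
    (hE.map_of_exact (tensorLeft X)).mono_f
  have hm2 : Mono ((ShortComplex.mk (qᘁ) (zd z) (mate_zd z q w)).map (tensorLeft Y)).f :=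
    (hE.map_of_exact (tensorLeft Y)).mono_f
  obtain ⟨wY, hwY⟩ : ∃ wY, wY ≫ (Y ◁ (qᘁ)) = π ≫ (q ▷ (Xᘁ : C)) :=
    ⟨hEY.lift _ hπ, hEY.lift_f _ hπ⟩
  have hq : ∀ {T : C} (a : T ⟶ X ⊗ (Xᘁ : C)), (a ≫ (X ◁ zd z) ≫ (ρ_ _).hom) ≫ q =
      a ≫ (q ▷ (Xᘁ : C)) ≫ (Y ◁ zd z) ≫ (ρ_ _).hom := by
    intro T a
    rw [← whisker_exchange_assoc]
    simp
  obtain ⟨w1, hw1⟩ : ∃ w1, w1 ≫ z = π ≫ (X ◁ zd z) ≫ (ρ_ _).hom := by
    have h1 : (π ≫ (X ◁ zd z) ≫ (ρ_ _).hom) ≫ q = 0 := by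
      rw [hq, ← Category.assoc, ← Category.assoc, hπ, zero_comp]
    exact ⟨hS.lift _ h1, hS.lift_f _ h1⟩
  -- the test object `X^∨`
  have hj0 : ((λ_ _).inv ≫ (z ▷ (Xᘁ : C))) ≫ (q ▷ (Xᘁ : C)) = 0 := by
    rw [Category.assoc, ← comp_whiskerRight, w, MonoidalPreadditive.zero_whiskerRight, comp_zero]
  obtain ⟨j, hj⟩ : ∃ j, j ≫ π = (λ_ _).inv ≫ (z ▷ (Xᘁ : C)) :=
    ⟨kernel.lift _ ((λ_ _).inv ≫ (z ▷ (Xᘁ : C))) (by rw [← Category.assoc, hj0, zero_comp]),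
      kernel.lift_ι _ _ _⟩
  have hjY : j ≫ wY = 0 := by
    have : Mono (Y ◁ (qᘁ)) := inferInstance
    rw [← cancel_mono (Y ◁ (qᘁ)), Category.assoc, hwY, ← Category.assoc, hj, hj0, zero_comp]
  have hj1 : j ≫ w1 = zd z := by
    rw [← cancel_mono z, Category.assoc, hw1, ← Category.assoc, hj, Category.assoc,
      ← whisker_exchange_assoc]
    simp [← unitors_equal]
  have hw1e : Epi w1 := by
    apply unit_epi hid
    intro h0
    exact hzd (by rw [← hj1, h0, comp_zero])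
  let d := π ≫ ev X - wY ≫ ev Y - w1
  have hd1 : kernel.ι w1 ≫ d = 0 := by
    have h1 : (kernel.ι w1 ≫ π) ≫ (X ◁ zd z) = 0 := by
      rw [← cancel_mono (ρ_ _).hom, Category.assoc, Category.assoc, zero_comp, ← hw1,
        kernel.condition_assoc, zero_comp]
    obtain ⟨l, hl⟩ : ∃ l, l ≫ (X ◁ (qᘁ)) = kernel.ι w1 ≫ π :=
      ⟨hEX.lift _ h1, hEX.lift_f _ h1⟩
    have h2 : kernel.ι w1 ≫ wY = l ≫ (q ▷ (Yᘁ : C)) := by
      have : Mono (Y ◁ (qᘁ)) := inferInstance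
      rw [← cancel_mono (Y ◁ (qᘁ)), Category.assoc, hwY, ← Category.assoc, ← hl, Category.assoc,
        Category.assoc, whisker_exchange]
    simp only [d, Preadditive.comp_sub, kernel.condition, sub_zero]
    rw [← Category.assoc, ← Category.assoc, h2, ← hl, Category.assoc, Category.assoc, ev_mate,
      sub_self]
  have hd2 : j ≫ d = 0 := by
    simp only [d, Preadditive.comp_sub]
    rw [← Category.assoc, ← Category.assoc, hj, hjY, hj1, Category.assoc, ev_zd, zero_comp]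
    simp
  have hd : d = 0 := by
    obtain ⟨s', h1⟩ : ∃ s', w1 ≫ s' = d := ⟨_, Abelian.comp_epiDesc w1 d hd1⟩
    have h2 : (j ≫ w1) ≫ s' = 0 := by rw [Category.assoc, h1, hd2]
    rw [hj1] at h2
    have h3 : s' = 0 := by rw [← cancel_epi (zd z), h2, comp_zero]
    rw [← h1, h3, comp_zero]
  -- the name of `g`
  have hu0 : η_ X (Xᘁ : C) ≫ (q ▷ (Xᘁ : C)) ≫ (Y ◁ zd z) = 0 := by
    rw [← whisker_exchange, ← Category.assoc,
      show η_ X (Xᘁ : C) ≫ (X ◁ zd z) = z ≫ (ρ_ _).inv by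
        rw [← cancel_mono (ρ_ _).hom, Category.assoc, coev_zd]; simp]
    rw [Category.assoc, ← rightUnitor_inv_naturality, ← Category.assoc, w, zero_comp]
  have hgq : (g ▷ (Xᘁ : C)) ≫ (q ▷ (Xᘁ : C)) = (q ▷ (Xᘁ : C)) ≫ (gY ▷ (Xᘁ : C)) := by
    rw [← comp_whiskerRight, hg, comp_whiskerRight]
  obtain ⟨u, hu⟩ : ∃ u, u ≫ π = η_ X (Xᘁ : C) ≫ (g ▷ (Xᘁ : C)) := by
    have h1 : (η_ X (Xᘁ : C) ≫ (g ▷ (Xᘁ : C))) ≫ (q ▷ (Xᘁ : C)) ≫ (Y ◁ zd z) = 0 := by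
      rw [Category.assoc, ← Category.assoc (g ▷ (Xᘁ : C)), hgq, Category.assoc,
        ← whisker_exchange, ← Category.assoc (q ▷ (Xᘁ : C)), ← Category.assoc, hu0, zero_comp]
    exact ⟨kernel.lift _ _ h1, kernel.lift_ι _ _ _⟩
  have huY : u ≫ wY = η_ Y (Yᘁ : C) ≫ (gY ▷ (Yᘁ : C)) := by
    have : Mono (Y ◁ (qᘁ)) := inferInstance
    rw [← cancel_mono (Y ◁ (qᘁ)), Category.assoc, hwY, ← Category.assoc, hu, Category.assoc, hgq,
      Category.assoc, ← whisker_exchange, ← Category.assoc, ← Category.assoc,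
      coevaluation_comp_rightAdjointMate]
  have hu1 : u ≫ w1 = 𝟙 _ := by
    rw [← cancel_mono z, Category.assoc, hw1, ← Category.assoc, hu, Category.assoc,
      ← whisker_exchange_assoc, rightUnitor_naturality, ← Category.assoc, ← Category.assoc,
      Category.assoc (η_ X (Xᘁ : C)), coev_zd, hz, Category.id_comp]
  have h1 := congrArg (fun v => u ≫ v) hd
  simp only [d, Preadditive.comp_sub, comp_zero] at h1
  rw [← Category.assoc, ← Category.assoc, hu, huY, hu1] at h1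
  have h2 : tr g = (η_ X (Xᘁ : C) ≫ (g ▷ (Xᘁ : C))) ≫ ev X := by rw [tr, Category.assoc]
  have h3 : tr gY = (η_ Y (Yᘁ : C) ≫ (gY ▷ (Yᘁ : C))) ≫ ev Y := by rw [tr, Category.assoc]
  rw [h2, h3]
  rw [sub_eq_zero, sub_eq_iff_eq_add] at h1
  rw [h1, add_comm]

end Ab

end Pool.Agent.V1139.AB
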