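import Mathlib

/-!
# The unit of a rigid abelian tensor category
-/

set_option autoImplicit false
set_option linter.unusedSectionVars false

open CategoryTheory Limits MonoidalCategory

namespace Pool.Agent.V1139.AB

universe v u

variable {C : Type u} [Category.{v} C] [Abelian C] [MonoidalCategory C] [SymmetricCategory C]
  [MonoidalPreadditive C] [RightRigidCategory C]

instance (X : C) : (tensorLeft X).IsRightAdjoint := (tensorLeftAdjunction X Xᘁ).isRightAdjoint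

instance (X : C) : (tensorLeft X).IsLeftAdjoint :=
  letI := BraidedCategory.exactPairing_swap X Xᘁ
  (tensorLeftAdjunction Xᘁ X).isLeftAdjoint

instance mono_wl (X : C) {Y Z : C} (f : Y ⟶ Z) [Mono f] : Mono (X ◁ f) :=
  (inferInstance : Mono ((tensorLeft X).map f))

instance epi_wl (X : C) {Y Z : C} (f : Y ⟶ Z) [Epi f] : Epi (X ◁ f) :=
  (inferInstance : Epi ((tensorLeft X).map f))

lemma wr_eq {Y Z : C} (f : Y ⟶ Z) (X : C) : f ▷ X = (β_ Y X).hom ≫ X ◁ f ≫ (β_ Z X).inv := by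
  rw [← Category.assoc, ← BraidedCategory.braiding_naturality_left, Category.assoc,
    Iso.hom_inv_id, Category.comp_id]

instance mono_wr {Y Z : C} (f : Y ⟶ Z) (X : C) [Mono f] : Mono (f ▷ X) := by
  rw [wr_eq]
  infer_instance

instance epi_wr {Y Z : C} (f : Y ⟶ Z) (X : C) [Epi f] : Epi (f ▷ X) := by
  rw [wr_eq]
  infer_instance

lemma isZero_left {A : C} (h : IsZero A) (B : C) : IsZero (A ⊗ B) :=
  (tensorRight B).map_isZero h

lemma isZero_right {B : C} (h : IsZero B) (A : C) : IsZero (A ⊗ B) :=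
  (tensorLeft A).map_isZero h

lemma isZero_comm {A B : C} (h : IsZero (A ⊗ B)) : IsZero (B ⊗ A) := h.of_iso (β_ B A)

/-- `I ⊗ K = 0` if `K ⟶ 𝟙 ⟶ I` is zero. -/
lemma isZero_tensor {K I : C} (i : K ⟶ 𝟙_ C) (p : 𝟙_ C ⟶ I) [Mono i] [Epi p] (h : i ≫ p = 0) :
    IsZero (I ⊗ K) := by
  have h1 : (p ▷ K) ≫ (I ◁ i) = 0 := by
    rw [← whisker_exchange]
    have h2 : 𝟙_ C ◁ i = (λ_ K).hom ≫ i ≫ (λ_ (𝟙_ C)).inv := by simp
    have h3 : p ▷ 𝟙_ C = (ρ_ (𝟙_ C)).hom ≫ p ≫ (ρ_ I).inv := by simp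
    rw [h2, h3, ← unitors_equal]
    simp only [Category.assoc, Iso.inv_hom_id_assoc, reassoc_of% h, zero_comp, comp_zero]
  have h4 : I ◁ i = 0 := by
    rw [← cancel_epi (p ▷ K), h1, comp_zero]
  exact IsZero.of_mono_eq_zero _ h4

lemma isZero_dual {A B : C} (h : IsZero (A ⊗ B)) : IsZero (A ⊗ (Bᘁ : C)) := by
  have h1 : IsZero (A ⊗ (Bᘁ ⊗ (B ⊗ Bᘁ))) := by
    refine (isZero_left h ((Bᘁ : C) ⊗ (Bᘁ : C))).of_iso ?_
    exact whiskerLeftIso A (β_ (Bᘁ : C) (B ⊗ (Bᘁ : C)) ≪≫ α_ B (Bᘁ : C) (Bᘁ : C)) ≪≫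
      (α_ A B _).symm
  rw [IsZero.iff_id_eq_zero]
  have h2 : 𝟙 (Bᘁ : C) = (ρ_ _).inv ≫ ((Bᘁ : C) ◁ η_ B (Bᘁ : C)) ≫ (α_ _ _ _).inv ≫
      (ε_ B (Bᘁ : C) ▷ (Bᘁ : C)) ≫ (λ_ _).hom := by
    rw [ExactPairing.coevaluation_evaluation_assoc]
    simp
  rw [← whiskerLeft_id, h2, whiskerLeft_comp, whiskerLeft_comp, h1.eq_of_tgt (A ◁ (Bᘁ : C) ◁ η_ B Bᘁ) 0,
    zero_comp, comp_zero]

variable {K I : C} (i : K ⟶ 𝟙_ C) (p : 𝟙_ C ⟶ I) [Mono i] [Epi p] (h : i ≫ p = 0)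
  (hS : (ShortComplex.mk i p h).Exact)

include hS in
lemma iso_of_zero {T : C} (hT : IsZero (I ⊗ T)) : IsIso (T ◁ i) := by
  have h1 : (ShortComplex.mk i p h).ShortExact := ShortComplex.ShortExact.mk hS
  have h2 := h1.map_of_exact (tensorLeft T)
  exact (h2.isIso_f_iff).2 (isZero_comm hT)

include hS in
/-- The kernel of an epimorphism from the unit is a direct summand. -/
lemma exists_retraction : ∃ r : 𝟙_ C ⟶ K, i ≫ r = 𝟙 K := by
  have h0 := isZero_tensor i p h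
  have h1 : IsIso (K ◁ i) := iso_of_zero i p h hS h0
  have h2 : IsIso ((Kᘁ : C) ◁ i) := iso_of_zero i p h hS (isZero_dual h0)
  -- the transpose of `i`
  let iv : 𝟙_ C ⟶ Kᘁ := η_ K Kᘁ ≫ (i ▷ Kᘁ) ≫ (λ_ _).hom
  have h3 : (iv ▷ K) ≫ ε_ K Kᘁ = (λ_ K).hom ≫ i := by
    have h4 : (i ▷ Kᘁ ≫ (λ_ _).hom) ▷ K ≫ ε_ K Kᘁ = (α_ K Kᘁ K).hom ≫ (K ◁ ε_ K Kᘁ) ≫
        (i ▷ 𝟙_ C) ≫ (λ_ _).hom := by
      rw [whisker_exchange_assoc]
      simp
    rw [show iv = η_ K Kᘁ ≫ (i ▷ Kᘁ ≫ (λ_ _).hom) from rfl, comp_whiskerRight, Category.assoc, h4,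
      ExactPairing.evaluation_coevaluation_assoc]
    simp [unitors_equal]
  have h5 : IsIso (i ▷ K) := by
    rw [wr_eq]
    infer_instance
  have h6 : IsIso (i ▷ (Kᘁ : C)) := by
    rw [wr_eq]
    infer_instance
  let m : K ⟶ K ⊗ K := (λ_ K).inv ≫ inv (i ▷ K)
  have hm : m ≫ (i ▷ K) ≫ (λ_ K).hom = 𝟙 K := by simp [m]
  let w : (Kᘁ : C) ⊗ K ⟶ K := ((Kᘁ : C) ◁ m) ≫ (α_ _ _ _).inv ≫ (ε_ K Kᘁ ▷ K) ≫ (λ_ K).hom
  have h7 : (iv ▷ K) ≫ w = (λ_ K).hom := by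
    have h8 : (iv ▷ K) ≫ ((Kᘁ : C) ◁ m) = (𝟙_ C ◁ m) ≫ (iv ▷ (K ⊗ K)) := (whisker_exchange _ _).symm
    have h9 : (iv ▷ (K ⊗ K)) ≫ (α_ _ _ _).inv = (α_ _ _ _).inv ≫ ((iv ▷ K) ▷ K) := by
      simp
    calc (iv ▷ K) ≫ w = ((iv ▷ K) ≫ ((Kᘁ : C) ◁ m)) ≫ (α_ _ _ _).inv ≫ (ε_ K Kᘁ ▷ K) ≫
          (λ_ K).hom := by simp only [w, Category.assoc]
      _ = (𝟙_ C ◁ m) ≫ ((iv ▷ (K ⊗ K)) ≫ (α_ _ _ _).inv) ≫ (ε_ K Kᘁ ▷ K) ≫ (λ_ K).hom := by
          rw [h8]
          simp only [Category.assoc]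
      _ = (𝟙_ C ◁ m) ≫ (α_ _ _ _).inv ≫ (((iv ▷ K) ≫ ε_ K Kᘁ) ▷ K) ≫ (λ_ K).hom := by
          rw [h9]
          simp only [Category.assoc, comp_whiskerRight]
      _ = (λ_ K).hom ≫ m ≫ (i ▷ K) ≫ (λ_ K).hom := by
          rw [h3]
          simp
      _ = (λ_ K).hom := by rw [hm, Category.comp_id]
  refine ⟨iv ≫ (λ_ _).inv ≫ inv (i ▷ (Kᘁ : C)) ≫ (β_ K Kᘁ).hom ≫ w, ?_⟩
  have h10 : i ≫ iv ≫ (λ_ (Kᘁ : C)).inv = (ρ_ K).inv ≫ (K ◁ iv) ≫ (i ▷ (Kᘁ : C)) := by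
    rw [whisker_exchange]
    have h11 : 𝟙_ C ◁ iv = (λ_ (𝟙_ C)).hom ≫ iv ≫ (λ_ _).inv := by simp
    have h12 : i ▷ 𝟙_ C = (ρ_ K).hom ≫ i ≫ (ρ_ (𝟙_ C)).inv := by simp
    rw [h11, h12, unitors_equal]
    simp
  have h13 : (ρ_ K).inv ≫ (K ◁ iv) ≫ (β_ K Kᘁ).hom = (λ_ K).inv ≫ (iv ▷ K) := by
    rw [BraidedCategory.braiding_naturality_right, ← Category.assoc, braiding_tensorUnit_right]
    simp
  calc i ≫ iv ≫ (λ_ _).inv ≫ inv (i ▷ (Kᘁ : C)) ≫ (β_ K Kᘁ).hom ≫ w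
      = (i ≫ iv ≫ (λ_ (Kᘁ : C)).inv) ≫ inv (i ▷ (Kᘁ : C)) ≫ (β_ K Kᘁ).hom ≫ w := by
        simp only [Category.assoc]
    _ = ((ρ_ K).inv ≫ (K ◁ iv) ≫ (β_ K Kᘁ).hom) ≫ w := by
        rw [h10]
        simp only [Category.assoc, IsIso.hom_inv_id_assoc]
    _ = 𝟙 K := by
        rw [h13, Category.assoc, h7, Iso.inv_hom_id]

/-- If the unit has no nontrivial idempotent endomorphism, nonzero morphisms from the unit are
monomorphisms. -/
theorem unit_mono (hid : ∀ e : 𝟙_ C ⟶ 𝟙_ C, e ≫ e = e → e = 0 ∨ e = 𝟙 _) {X : C}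
    (f : 𝟙_ C ⟶ X) (hf : f ≠ 0) : Mono f := by
  let i := kernel.ι f
  let p := cokernel.π i
  have h : i ≫ p = 0 := cokernel.condition i
  have hS : (ShortComplex.mk i p h).Exact := ShortComplex.exact_cokernel i
  obtain ⟨r, hr⟩ := exists_retraction i p h hS
  have hri : i ≫ r ≫ i = i := by rw [← Category.assoc, hr, Category.id_comp]
  rcases hid (r ≫ i) (by rw [Category.assoc, hri]) with h1 | h1
  · have h2 : i = 0 := by rw [← hri, h1, comp_zero]
    exact Preadditive.mono_of_kernel_zero h2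
  · exfalso
    apply hf
    have h2 : i ≫ f = 0 := kernel.condition f
    rw [← Category.id_comp f, ← h1, Category.assoc, h2, comp_zero]

section Ext

variable {κ : Type*} [Field κ] [Linear κ C]
  (hκ : ∀ e : 𝟙_ C ⟶ 𝟙_ C, ∃ c : κ, e = c • 𝟙 (𝟙_ C))

include hκ in
lemma idem_of_scalar (e : 𝟙_ C ⟶ 𝟙_ C) (he : e ≫ e = e) : e = 0 ∨ e = 𝟙 _ := by
  obtain ⟨c, rfl⟩ := hκ e
  by_cases h1 : c = 0
  · left
    rw [h1, zero_smul]
  · right
    rw [Linear.smul_comp, Linear.comp_smul, Category.comp_id] at he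
    have h2 := congrArg (fun u => c⁻¹ • u) he
    simpa [h1] using h2

include hκ in
lemma scalar_mono {X : C} (f : 𝟙_ C ⟶ X) (hf : f ≠ 0) : Mono f :=
  unit_mono (idem_of_scalar hκ) f hf

include hκ in
lemma ext_inj (n : ℕ) {X : C} (x : Fin n → (𝟙_ C ⟶ X)) : ∀ {Y : C} (y : Fin n → (𝟙_ C ⟶ Y)),
    LinearIndependent κ y → ∑ j, (x j ⊗ₘ y j) = 0 → ∀ j, x j = 0 := by
  induction n with
  | zero => exact fun _ _ _ j => j.elim0
  | succ n ih =>
    intro Y y hy h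
    have h0 : y (Fin.last n) ≠ 0 := hy.ne_zero _
    have h1 : Mono (y (Fin.last n)) := scalar_mono hκ _ h0
    let q := cokernel.π (y (Fin.last n))
    have hq : y (Fin.last n) ≫ q = 0 := cokernel.condition _
    have h2 : LinearIndependent κ (fun j : Fin n => y j.castSucc ≫ q) := by
      rw [Fintype.linearIndependent_iff]
      intro c hc j
      have h3 : (∑ j, c j • y j.castSucc) ≫ q = 0 := by
        rw [Preadditive.sum_comp]
        simpa only [Linear.smul_comp] using hc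
      obtain ⟨d, hd⟩ := hκ (Abelian.monoLift (y (Fin.last n)) _ h3)
      have h4 := Abelian.monoLift_comp (y (Fin.last n)) _ h3
      rw [hd, Linear.smul_comp, Category.id_comp] at h4
      have h5 := Fintype.linearIndependent_iff.1 hy (Fin.snoc (α := fun _ => κ) c (-d)) (by
        rw [Fin.sum_univ_castSucc]
        simp only [Fin.snoc_castSucc, Fin.snoc_last]
        rw [← h4, neg_smul, add_neg_cancel])
      have h6 := h5 j.castSucc
      rwa [Fin.snoc_castSucc] at h6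
    have h3 : ∑ j : Fin n, (x j.castSucc ⊗ₘ (y j.castSucc ≫ q)) = 0 := by
      have h4 := congrArg (fun u => u ≫ (X ◁ q)) h
      simp only [Fin.sum_univ_castSucc, Preadditive.add_comp, Preadditive.sum_comp, zero_comp] at h4
      have h5 : ∀ j, (x j ⊗ₘ y j) ≫ (X ◁ q) = (x j ⊗ₘ (y j ≫ q)) := by
        intro j
        rw [← id_tensorHom, tensorHom_comp_tensorHom, Category.comp_id]
      simp only [h5, hq] at h4
      have h6 : (x (Fin.last n) ⊗ₘ (0 : 𝟙_ C ⟶ cokernel (y (Fin.last n)))) = 0 := by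
        rw [MonoidalCategory.tensorHom_def, MonoidalPreadditive.whiskerLeft_zero, comp_zero]
      rw [h6, add_zero] at h4
      exact h4
    have h4 := ih (fun j => x j.castSucc) (fun j => y j.castSucc ≫ q) h2 h3
    have h5 : x (Fin.last n) = 0 := by
      rw [Fin.sum_univ_castSucc] at h
      have h6 : ∀ j : Fin n, (x j.castSucc ⊗ₘ y j.castSucc) = 0 := by
        intro j
        rw [h4 j, MonoidalCategory.tensorHom_def, MonoidalPreadditive.zero_whiskerRight, zero_comp]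
      simp only [h6, Finset.sum_const_zero, zero_add] at h
      rw [MonoidalCategory.tensorHom_def, ← zero_comp (f := X ◁ y (Fin.last n)), cancel_mono] at h
      have h7 : x (Fin.last n) = (ρ_ _).inv ≫ (x (Fin.last n) ▷ 𝟙_ C) ≫ (ρ_ _).hom := by simp
      rw [h7, h, zero_comp, comp_zero]
    intro j
    induction j using Fin.lastCases with
    | last => exact h5
    | cast j => exact h4 j

variable (κ) in
/-- The exterior product `Hom(𝟙, X) ⊗ Hom(𝟙, Y) ⟶ Hom(𝟙 ⊗ 𝟙, X ⊗ Y)`. -/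
noncomputable def extProd [MonoidalLinear κ C] (X Y : C) :
    TensorProduct κ (𝟙_ C ⟶ X) (𝟙_ C ⟶ Y) →ₗ[κ] (𝟙_ C ⊗ 𝟙_ C ⟶ X ⊗ Y) :=
  TensorProduct.lift (LinearMap.mk₂ κ (fun x y => x ⊗ₘ y)
    (fun a b c => by simp only [MonoidalCategory.tensorHom_def, MonoidalPreadditive.add_whiskerRight,
      Preadditive.add_comp])
    (fun r a c => by simp only [MonoidalCategory.tensorHom_def, MonoidalLinear.smul_whiskerRight,
      Linear.smul_comp])
    (fun a b c => by simp only [MonoidalCategory.tensorHom_def, MonoidalPreadditive.whiskerLeft_add,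
      Preadditive.comp_add])
    (fun r a c => by simp only [MonoidalCategory.tensorHom_def, MonoidalLinear.whiskerLeft_smul,
      Linear.comp_smul]))

include hκ in
/-- The exterior product is injective. -/
theorem extProd_injective [MonoidalLinear κ C] (X Y : C) :
    Function.Injective (extProd κ X Y) := by
  classical
  rw [injective_iff_map_eq_zero]
  intro t ht
  let b := Module.Basis.ofVectorSpace κ (𝟙_ C ⟶ Y)
  let e := TensorProduct.equivFinsuppOfBasisRight (M := (𝟙_ C ⟶ X)) b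
  obtain ⟨s, hs⟩ := e.symm.surjective t
  have h1 : t = ∑ i ∈ s.support, (s i) ⊗ₜ[κ] (b i) := by
    rw [← hs]
    simp only [e, TensorProduct.equivFinsuppOfBasisRight_symm_apply]
    rfl
  have h2 : ∑ i ∈ s.support, (s i ⊗ₘ b i) = 0 := by
    rw [h1, map_sum] at ht
    simpa [extProd] using ht
  have h3 : ∀ i ∈ s.support, s i = 0 := by
    let f := s.support.equivFin.symm
    have h4 : ∑ j, (s (f j) ⊗ₘ b (f j)) = 0 := by
      rw [← h2, ← Finset.sum_coe_sort s.support]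
      exact Equiv.sum_comp f (fun i : s.support => (s i ⊗ₘ b i))
    have h5 : LinearIndependent κ (fun j => b (f j)) :=
      b.linearIndependent.comp _ (Subtype.val_injective.comp f.injective)
    have h6 := ext_inj hκ _ (fun j => s (f j)) (fun j => b (f j)) h5 h4
    intro i hi
    have h7 := h6 (s.support.equivFin ⟨i, hi⟩)
    simpa [f] using h7
  rw [h1]
  exact Finset.sum_eq_zero fun i hi => by rw [h3 i hi, TensorProduct.zero_tmul]

end Ext

end Pool.Agent.V1139.AB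

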